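import Pool.Agent.H74.MRW.Def

set_option autoImplicit false

namespace Pool.MRW

open Finset
open scoped Classical

theorem t_grd : GRDStmt := by
  intro ι V _ _ S Lf n Fb m η hadd hsm hnn hex hFb hη2 hη1 htot
  obtain ⟨g, hg⟩ : ∃ g : ι → V → ℝ, g = fun e w =>
      ∑ s ∈ Ioo 0 (n e), Lf e (fun p => if p s = w then 1 else 0) := ⟨_, rfl⟩
  have hgd : ∀ e w, g e w = ∑ s ∈ Ioo 0 (n e), Lf e (fun p => if p s = w then 1 else 0) := by
    intro e w; rw [hg]
  simp only [← hgd] at hη2 hη1
  have hzero : ∀ e, Lf e (fun _ => 0) = 0 := by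
    intro e
    have := hsm e 0 (fun _ => 0)
    simpa using this
  have hsum : ∀ (e : ι) (κ : Type) (T : Finset κ) (F : κ → (ℕ → V) → ℝ),
      Lf e (fun p => ∑ i ∈ T, F i p) = ∑ i ∈ T, Lf e (F i) := by
    intro e κ T F
    induction T using Finset.induction_on with
    | empty => simpa using hzero e
    | insert a T ha ih =>
      simp only [Finset.sum_insert ha]
      rw [hadd e (F a) (fun p => ∑ i ∈ T, F i p), ih]
  have hg0 : ∀ e w, 0 ≤ g e w := by
    intro e w
    rw [hgd]
    refine Finset.sum_nonneg fun s _ => hnn _ _ fun p => ?_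
    split_ifs <;> norm_num
  obtain ⟨G, hG⟩ : ∃ G : V → ℝ, ∀ w, G w = ∑ e, g e w := ⟨fun w => ∑ e, g e w, fun _ => rfl⟩
  have hG0 : ∀ w, 0 ≤ G w := fun w => by
    rw [hG]; exact Finset.sum_nonneg fun e _ => hg0 e w
  have hgG : ∀ e w, g e w ≤ G w := by
    intro e w
    rw [hG]
    exact Finset.single_le_sum (f := fun e => g e w) (fun i _ => hg0 i w) (Finset.mem_univ e)
  have hexp : ∀ (e : ι) (φ : V → ℝ),
      Lf e (fun p => ∑ s ∈ Ioo 0 (n e), φ (p s)) = ∑ w, φ w * g e w := by
    intro e φ
    have h1 : (fun p : ℕ → V => ∑ s ∈ Ioo 0 (n e), φ (p s)) =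
        fun p : ℕ → V => ∑ s ∈ Ioo 0 (n e), ∑ w, φ w * (if p s = w then 1 else 0) := by
      funext p
      refine Finset.sum_congr rfl fun s _ => ?_
      simp
    rw [h1, hsum e ℕ (Ioo 0 (n e))
      (fun s p => ∑ w, φ w * (if p s = w then 1 else 0))]
    have h2 : ∀ s, Lf e (fun p => ∑ w, φ w * (if p s = w then 1 else 0)) =
        ∑ w, φ w * Lf e (fun p => if p s = w then 1 else 0) := by
      intro s
      rw [hsum e V univ (fun w p => φ w * (if p s = w then 1 else 0))]
      refine Finset.sum_congr rfl fun w _ => ?_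
      exact hsm e (φ w) _
    simp only [h2]
    rw [Finset.sum_comm]
    refine Finset.sum_congr rfl fun w _ => ?_
    rw [hgd, Finset.mul_sum]
  have hmain : ∀ T : Finset ι, ∃ p : ι → ℕ → V,
      (∀ e ∈ T, S e (p e) ∧ 4 * (Fintype.card ι : ℝ) * ∑ s ∈ Ioo 0 (n e), G (p e s) ≤ 1 ∧
        ∀ s ∈ Ioo 0 (n e), p e s ∉ Fb e) ∧
      ∀ e ∈ T, ∀ e' ∈ T, e ≠ e' → ∀ s ∈ Ioo 0 (n e), ∀ s' ∈ Ioo 0 (n e'), p e s ≠ p e' s' := by
    intro T
    induction T using Finset.induction_on with
    | empty =>
      by_cases hi : Nonempty ι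
      · obtain ⟨e⟩ := hi
        obtain ⟨p, -, -⟩ := hex e (fun _ => 0) (fun _ => le_rfl) (by rw [hzero]; norm_num)
        exact ⟨fun _ => p, by simp, by simp⟩
      · exact ⟨fun e => (hi ⟨e⟩).elim, by simp, by simp⟩
    | insert a T ha ih =>
      obtain ⟨p, hp1, hp2⟩ := ih
      have hcard : 0 < (Fintype.card ι : ℝ) := by
        have : 0 < Fintype.card ι := Fintype.card_pos_iff.2 ⟨a⟩
        exact_mod_cast this
      obtain ⟨p0, -, -⟩ := hex a (fun _ => 0) (fun _ => le_rfl) (by rw [hzero]; norm_num)
      have hη : 0 ≤ η := (hg0 a (p0 0)).trans (hη1 a (p0 0))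
      obtain ⟨φ, hφ⟩ : ∃ φ : V → ℝ, ∀ v, φ v = 4 * (Fintype.card ι : ℝ) * G v +
          (∑ e' ∈ T, ∑ s' ∈ Ioo 0 (n e'), (if v = p e' s' then (1 : ℝ) else 0)) +
          ∑ w ∈ Fb a, (if v = w then (1 : ℝ) else 0) := ⟨_, fun _ => rfl⟩
      have hA0 : ∀ v, 0 ≤ ∑ e' ∈ T, ∑ s' ∈ Ioo 0 (n e'), (if v = p e' s' then (1 : ℝ) else 0) := by
        intro v
        refine Finset.sum_nonneg fun e' _ => Finset.sum_nonneg fun s' _ => ?_
        split_ifs <;> norm_num
      have hB0 : ∀ v, 0 ≤ ∑ w ∈ Fb a, (if v = w then (1 : ℝ) else 0) := by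
        intro v
        refine Finset.sum_nonneg fun e' _ => ?_
        split_ifs <;> norm_num
      have hC0 : ∀ v, 0 ≤ 4 * (Fintype.card ι : ℝ) * G v := fun v =>
        mul_nonneg (by linarith) (hG0 v)
      have hφ0 : ∀ v, 0 ≤ φ v := by
        intro v
        rw [hφ]
        linarith [hA0 v, hB0 v, hC0 v]
      have hval : ∑ w, φ w * g a w < 1 := by
        have e1 : ∑ w, φ w * g a w = 4 * (Fintype.card ι : ℝ) * ∑ w, G w * g a w +
            (∑ e' ∈ T, ∑ s' ∈ Ioo 0 (n e'), g a (p e' s')) + ∑ w ∈ Fb a, g a w := by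
          have e2 : ∀ w, φ w * g a w = 4 * (Fintype.card ι : ℝ) * (G w * g a w) +
              (∑ e' ∈ T, ∑ s' ∈ Ioo 0 (n e'), (if w = p e' s' then (1 : ℝ) else 0)) * g a w +
              (∑ u ∈ Fb a, (if w = u then (1 : ℝ) else 0)) * g a w := by
            intro w; rw [hφ]; ring
          simp only [e2]
          rw [Finset.sum_add_distrib, Finset.sum_add_distrib, ← Finset.mul_sum]
          congr 1
          · congr 1
            have e3 : ∀ w, (∑ e' ∈ T, ∑ s' ∈ Ioo 0 (n e'), (if w = p e' s' then (1 : ℝ) else 0)) *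
                g a w = ∑ e' ∈ T, ∑ s' ∈ Ioo 0 (n e'), (if w = p e' s' then g a w else 0) := by
              intro w
              rw [Finset.sum_mul]
              refine Finset.sum_congr rfl fun e' _ => ?_
              rw [Finset.sum_mul]
              refine Finset.sum_congr rfl fun s' _ => ?_
              split_ifs <;> simp
            simp only [e3]
            rw [Finset.sum_comm]
            refine Finset.sum_congr rfl fun e' _ => ?_
            rw [Finset.sum_comm]
            refine Finset.sum_congr rfl fun s' _ => ?_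
            simp
          · have e3 : ∀ w, (∑ u ∈ Fb a, (if w = u then (1 : ℝ) else 0)) * g a w =
                ∑ u ∈ Fb a, (if w = u then g a w else 0) := by
              intro w
              rw [Finset.sum_mul]
              refine Finset.sum_congr rfl fun s' _ => ?_
              split_ifs <;> simp
            simp only [e3]
            rw [Finset.sum_comm]
            refine Finset.sum_congr rfl fun s' _ => ?_
            simp
        rw [e1]
        have h1 : ∑ w, G w * g a w ≤ (Fintype.card ι : ℝ) * η := by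
          have e4 : ∑ w, G w * g a w = ∑ e, ∑ w, g e w * g a w := by
            rw [Finset.sum_comm]
            refine Finset.sum_congr rfl fun w _ => ?_
            rw [hG, Finset.sum_mul]
          rw [e4]
          refine (Finset.sum_le_sum fun e _ => hη2 e a).trans ?_
          simp
        have h2 : ∑ e' ∈ T, ∑ s' ∈ Ioo 0 (n e'), g a (p e' s') ≤ 1 / 4 := by
          have h3 : ∀ e' ∈ T, ∑ s' ∈ Ioo 0 (n e'), g a (p e' s') ≤
              1 / (4 * (Fintype.card ι : ℝ)) := by
            intro e' he'
            refine (Finset.sum_le_sum fun s' _ => hgG a (p e' s')).trans ?_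
            rw [le_div_iff₀ (by linarith)]
            have := (hp1 e' he').2.1
            linarith
          refine (Finset.sum_le_sum h3).trans ?_
          rw [Finset.sum_const, nsmul_eq_mul]
          have h4 : (T.card : ℝ) ≤ (Fintype.card ι : ℝ) := by
            exact_mod_cast Finset.card_le_univ T
          rw [mul_one_div, div_le_div_iff₀ (by linarith) (by norm_num)]
          linarith
        have h5 : ∑ w ∈ Fb a, g a w ≤ m * η := by
          refine (Finset.sum_le_sum fun w _ => hη1 a w).trans ?_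
          rw [Finset.sum_const, nsmul_eq_mul]
          have : ((Fb a).card : ℝ) ≤ m := by exact_mod_cast hFb a
          exact mul_le_mul_of_nonneg_right this hη
        have h6 : 4 * (Fintype.card ι : ℝ) * ∑ w, G w * g a w ≤
            4 * (Fintype.card ι : ℝ) ^ 2 * η := by
          have := mul_le_mul_of_nonneg_left h1 (show 0 ≤ 4 * (Fintype.card ι : ℝ) by linarith)
          calc _ ≤ 4 * (Fintype.card ι : ℝ) * ((Fintype.card ι : ℝ) * η) := this
            _ = _ := by ring
        linarith
      obtain ⟨q, hq1, hq2⟩ := hex a (fun q => ∑ s ∈ Ioo 0 (n a), φ (q s))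
        (fun q => Finset.sum_nonneg fun s _ => hφ0 _) (by rw [hexp]; exact hval)
      have hqs : ∀ s ∈ Ioo 0 (n a), φ (q s) < 1 := by
        intro s hs
        exact lt_of_le_of_lt
          (Finset.single_le_sum (f := fun s => φ (q s)) (fun i _ => hφ0 _) hs) hq2
      have hqT : ∀ s ∈ Ioo 0 (n a), ∀ e' ∈ T, ∀ s' ∈ Ioo 0 (n e'), q s ≠ p e' s' := by
        intro s hs e' he' s' hs' h
        have h1 := hqs s hs
        rw [hφ] at h1
        have h2 : (1 : ℝ) ≤ ∑ e' ∈ T, ∑ s' ∈ Ioo 0 (n e'), (if q s = p e' s' then (1 : ℝ) else 0) := by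
          have h3 : (1 : ℝ) ≤ ∑ s' ∈ Ioo 0 (n e'), (if q s = p e' s' then (1 : ℝ) else 0) := by
            refine le_trans ?_ (Finset.single_le_sum
              (f := fun s' => if q s = p e' s' then (1 : ℝ) else 0) (fun i _ => ?_) hs')
            · simp [h]
            · split_ifs <;> norm_num
          refine h3.trans (Finset.single_le_sum
            (f := fun e' => ∑ s' ∈ Ioo 0 (n e'), (if q s = p e' s' then (1 : ℝ) else 0))
            (fun i _ => Finset.sum_nonneg fun j _ => ?_) he')
          split_ifs <;> norm_num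
        linarith [hB0 (q s), hC0 (q s)]
      have hqF : ∀ s ∈ Ioo 0 (n a), q s ∉ Fb a := by
        intro s hs h
        have h1 := hqs s hs
        rw [hφ] at h1
        have h2 : (1 : ℝ) ≤ ∑ w ∈ Fb a, (if q s = w then (1 : ℝ) else 0) := by
          refine le_trans ?_ (Finset.single_le_sum
            (f := fun w => if q s = w then (1 : ℝ) else 0) (fun i _ => ?_) h)
          · simp
          · split_ifs <;> norm_num
        linarith [hA0 (q s), hC0 (q s)]
      have hqG : 4 * (Fintype.card ι : ℝ) * ∑ s ∈ Ioo 0 (n a), G (q s) ≤ 1 := by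
        refine le_trans ?_ hq2.le
        rw [Finset.mul_sum]
        refine Finset.sum_le_sum fun s _ => ?_
        rw [hφ]
        linarith [hA0 (q s), hB0 (q s)]
      refine ⟨Function.update p a q, ?_, ?_⟩
      · intro e he
        rcases Finset.mem_insert.1 he with rfl | he
        · simp only [Function.update_self]
          exact ⟨hq1, hqG, hqF⟩
        · have hne : e ≠ a := fun h => ha (h ▸ he)
          rw [Function.update_of_ne hne]
          exact hp1 e he
      · intro e he e' he' hne s hs s' hs'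
        rcases Finset.mem_insert.1 he with h1 | h1 <;> rcases Finset.mem_insert.1 he' with h2 | h2
        · exact absurd (h1.trans h2.symm) hne
        · subst h1
          have hne' : e' ≠ e := fun h => hne h.symm
          rw [Function.update_self, Function.update_of_ne hne']
          exact hqT s hs e' h2 s' hs'
        · subst h2
          rw [Function.update_self, Function.update_of_ne hne]
          exact fun h => hqT s' hs' e h1 s hs h.symm
        · have hne1 : e ≠ a := fun h => ha (h ▸ h1)
          have hne2 : e' ≠ a := fun h => ha (h ▸ h2)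
          rw [Function.update_of_ne hne1, Function.update_of_ne hne2]
          exact hp2 e h1 e' h2 hne s hs s' hs'
  obtain ⟨p, hp1, hp2⟩ := hmain univ
  refine ⟨p, fun e => (hp1 e (mem_univ e)).1, ?_, ?_⟩
  · intro e e' hne s s' h1 h2 h3 h4
    exact hp2 e (mem_univ _) e' (mem_univ _) hne s (mem_Ioo.2 ⟨h1, h2⟩) s' (mem_Ioo.2 ⟨h3, h4⟩)
  · intro e s h1 h2
    exact (hp1 e (mem_univ e)).2.2 s (mem_Ioo.2 ⟨h1, h2⟩)

end Pool.MRW
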